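import Pool.Agent.H33.YBDefs

set_option autoImplicit false

namespace Pool.Agent.Results.MP_f0defb_al.Q1

open Pool.Agent.H33.YB

inductive Tm (X : Type) : Type
  | var : X → Tm X
  | l : Tm X → Tm X → Tm X
  | r : Tm X → Tm X → Tm X
  | li : Tm X → Tm X → Tm X
  | ri : Tm X → Tm X → Tm X

noncomputable def linv (Z : Sol) (x : Z.Y) : Z.Y → Z.Y := (Equiv.ofBijective _ (Z.lam_bij x)).symm
noncomputable def rinv (Z : Sol) (x : Z.Y) : Z.Y → Z.Y := (Equiv.ofBijective _ (Z.rho_bij x)).symm

lemma lam_linv (Z : Sol) (x y : Z.Y) : Z.lam x (linv Z x y) = y :=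
  (Equiv.ofBijective _ (Z.lam_bij x)).apply_symm_apply y
lemma linv_lam (Z : Sol) (x y : Z.Y) : linv Z x (Z.lam x y) = y :=
  (Equiv.ofBijective _ (Z.lam_bij x)).symm_apply_apply y
lemma rho_rinv (Z : Sol) (x y : Z.Y) : Z.rho x (rinv Z x y) = y :=
  (Equiv.ofBijective _ (Z.rho_bij x)).apply_symm_apply y
lemma rinv_rho (Z : Sol) (x y : Z.Y) : rinv Z x (Z.rho x y) = y :=
  (Equiv.ofBijective _ (Z.rho_bij x)).symm_apply_apply y

noncomputable def ev {X : Type} (Z : Sol) (h : X → Z.Y) : Tm X → Z.Y
  | .var x => h x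
  | .l a b => Z.lam (ev Z h a) (ev Z h b)
  | .r a b => Z.rho (ev Z h a) (ev Z h b)
  | .li a b => linv Z (ev Z h a) (ev Z h b)
  | .ri a b => rinv Z (ev Z h a) (ev Z h b)

def st (X : Type) : Setoid (Tm X) where
  r a b := ∀ (Z : Sol) (h : X → Z.Y), ev Z h a = ev Z h b
  iseqv := ⟨fun _ _ _ => rfl, fun h Z k => (h Z k).symm, fun h h' Z k => (h Z k).trans (h' Z k)⟩

def op {X : Type} (o : Tm X → Tm X → Tm X)
    (ho : ∀ (Z : Sol) (h : X → Z.Y) a b a' b', ev Z h a = ev Z h a' → ev Z h b = ev Z h b' →
      ev Z h (o a b) = ev Z h (o a' b')) :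
    Quotient (st X) → Quotient (st X) → Quotient (st X) :=
  Quotient.map₂ o fun _ _ h _ _ h' Z k => ho Z k _ _ _ _ (h Z k) (h' Z k)

def ql (X : Type) := op (X := X) Tm.l fun Z h a b a' b' e e' => by simp only [ev, e, e']
def qr (X : Type) := op (X := X) Tm.r fun Z h a b a' b' e e' => by simp only [ev, e, e']
def qli (X : Type) := op (X := X) Tm.li fun Z h a b a' b' e e' => by simp only [ev, e, e']
def qri (X : Type) := op (X := X) Tm.ri fun Z h a b a' b' e e' => by simp only [ev, e, e']

lemma ql_qli (X : Type) (a b : Quotient (st X)) : ql X a (qli X a b) = b := by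
  induction a using Quotient.inductionOn
  induction b using Quotient.inductionOn
  exact Quotient.sound fun Z h => lam_linv Z _ _
lemma qli_ql (X : Type) (a b : Quotient (st X)) : qli X a (ql X a b) = b := by
  induction a using Quotient.inductionOn
  induction b using Quotient.inductionOn
  exact Quotient.sound fun Z h => linv_lam Z _ _
lemma qr_qri (X : Type) (a b : Quotient (st X)) : qr X a (qri X a b) = b := by
  induction a using Quotient.inductionOn
  induction b using Quotient.inductionOn
  exact Quotient.sound fun Z h => rho_rinv Z _ _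
lemma qri_qr (X : Type) (a b : Quotient (st X)) : qri X a (qr X a b) = b := by
  induction a using Quotient.inductionOn
  induction b using Quotient.inductionOn
  exact Quotient.sound fun Z h => rinv_rho Z _ _

def FS (X : Type) : Sol where
  Y := Quotient (st X)
  lam := ql X
  rho := qr X
  lam_bij a := Function.bijective_iff_has_inverse.2 ⟨qli X a, qli_ql X a, ql_qli X a⟩
  rho_bij a := Function.bijective_iff_has_inverse.2 ⟨qri X a, qri_qr X a, qr_qri X a⟩
  braid := by
    rintro ⟨a, b, c⟩
    induction a using Quotient.inductionOn with | _ a => ?_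
    induction b using Quotient.inductionOn with | _ b => ?_
    induction c using Quotient.inductionOn with | _ c => ?_
    refine Prod.ext (Quotient.sound fun Z h => ?_) (Prod.ext (Quotient.sound fun Z h => ?_)
      (Quotient.sound fun Z h => ?_))
    · exact congrArg (fun t => t.1) (Z.braid (ev Z h a, ev Z h b, ev Z h c))
    · exact congrArg (fun t => t.2.1) (Z.braid (ev Z h a, ev Z h b, ev Z h c))
    · exact congrArg (fun t => t.2.2) (Z.braid (ev Z h a, ev Z h b, ev Z h c))

lemma FS_free (X : Type) : IsFree X (FS X) (fun x => Quotient.mk (st X) (Tm.var x)) := by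
  intro Z h
  refine ⟨Quotient.lift (ev Z h) fun a b e => e Z h, ⟨fun a b => ?_, rfl⟩, ?_⟩
  · induction a using Quotient.inductionOn
    induction b using Quotient.inductionOn
    rfl
  · rintro f ⟨hf, hi⟩
    funext a
    induction a using Quotient.inductionOn with | _ a => ?_
    change f (Quotient.mk (st X) a) = ev Z h a
    induction a with
    | var x => exact congrFun hi x
    | l a b ha hb =>
      rw [ev, ← ha, ← hb]
      exact congrArg Prod.fst (hf (Quotient.mk (st X) a) (Quotient.mk (st X) b))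
    | r a b ha hb =>
      rw [ev, ← ha, ← hb]
      exact congrArg Prod.snd (hf (Quotient.mk (st X) b) (Quotient.mk (st X) a))
    | li a b ha hb =>
      rw [ev, ← ha, ← hb]
      have h1 := congrArg Prod.fst (hf (Quotient.mk (st X) a) (Quotient.mk (st X) (Tm.li a b)))
      have h2 : (FS X).lam (Quotient.mk (st X) a) (Quotient.mk (st X) (Tm.li a b)) =
        Quotient.mk (st X) b := ql_qli X (Quotient.mk (st X) a) (Quotient.mk (st X) b)
      simp only [h2] at h1
      rw [h1, linv_lam]
    | ri a b ha hb =>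
      rw [ev, ← ha, ← hb]
      have h1 := congrArg Prod.snd (hf (Quotient.mk (st X) (Tm.ri a b)) (Quotient.mk (st X) a))
      have h2 : (FS X).rho (Quotient.mk (st X) a) (Quotient.mk (st X) (Tm.ri a b)) =
        Quotient.mk (st X) b := qr_qri X (Quotient.mk (st X) a) (Quotient.mk (st X) b)
      simp only [h2] at h1
      rw [h1, rinv_rho]

def Lyu : Sol where
  Y := Bool
  lam _ y := y
  rho _ x := !x
  lam_bij _ := Function.bijective_id
  rho_bij _ := by decide
  braid _ := rfl

theorem result : ∀ (X : Type) [Nonempty X],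
    (∃ (F : Sol) (i : X → F.Y), IsFree X F i) ∧
      ∀ (F : Sol) (i : X → F.Y), IsFree X F i → ¬ Function.Injective (gmap F) := by
  intro X hX
  refine ⟨⟨FS X, _, FS_free X⟩, fun F i hF hinj => ?_⟩
  obtain ⟨x⟩ := hX
  obtain ⟨f, ⟨hf, -⟩, -⟩ := hF Lyu (fun _ => true)
  obtain ⟨b, hb⟩ := (F.lam_bij (i x)).2 (i x)
  have h1 : gmap F (i x) * gmap F b *
      (gmap F (F.lam (i x) b) * gmap F (F.rho b (i x)))⁻¹ = 1 :=
    PresentedGroup.one_of_mem (rels := rels F) ⟨i x, b, rfl⟩
  rw [hb, mul_inv_eq_one, mul_right_inj] at h1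
  have h2 := hinj h1
  have h3 := hf (i x) b
  rw [hb, ← h2] at h3
  have h4 : f (i x) = f b := congrArg Prod.fst h3
  have h5 : f b = !f (i x) := congrArg Prod.snd h3
  rw [h4] at h5
  exact (Bool.not_ne_self (f b)) h5.symm

end Pool.Agent.Results.MP_f0defb_al.Q1
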